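import Pool.Agent.P.MP_234818_nt.Units

set_option autoImplicit false

namespace Pool.Agent.Results.MP_234818_nt.AlphaApprox

open Pool.Agent.Feig

theorem result (K : Type) [Field K] [CharZero K] (n : ℕ) (b c ρ : K)
    (hb : Function.minimalPeriod (fun x : K => b * x * (1 - x)) (1 / 2) = 2 ^ (n + 1))
    (hc : Function.minimalPeriod (fun x : K => c * x * (1 - x)) (1 / 2) = 2 ^ (n + 2))
    (hρ : ρ = ((fun x : K => b * x * (1 - x))^[2 ^ n] (1 / 2) - 1 / 2) /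
      ((fun x : K => c * x * (1 - x))^[2 ^ (n + 1)] (1 / 2) - 1 / 2)) :
    IsIntegral ℤ ρ ∧ IsIntegral ℤ ρ⁻¹ ∧ 2 ^ (n + 2) ∣ (minpoly ℚ ρ).natDegree := by
  obtain ⟨v, hv, v0, v1⟩ := exists_lift hb
  obtain ⟨t, ht, t0, t1⟩ := exists_lift hc
  obtain ⟨s, hs⟩ := v1 n rfl
  obtain ⟨s', hs'⟩ := t1 (n + 1) rfl
  have hd : ((s * s'⁻¹ : (integralClosure ℤ K)ˣ) : integralClosure ℤ K) * w t (2 ^ (n + 1)) =
      w v (2 ^ n) := by
    rw [← hs, ← hs', Units.val_mul, Units.inv_mul_cancel_right]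
  set d : (integralClosure ℤ K)ˣ := s * s'⁻¹
  have co : ∀ (y : integralClosure ℤ K) (m : ℕ), ((w y m : integralClosure ℤ K) : K) = w (y : K) m :=
    fun y m => map_w (integralClosure ℤ K).val.toRingHom y m
  have e : ρ = ((d : integralClosure ℤ K) : K) := by
    have h := congrArg Subtype.val hd
    have h0 : ((w t (2 ^ (n + 1)) : integralClosure ℤ K) : K) ≠ 0 := fun h1 =>
      s'.ne_zero (hs'.trans (Subtype.ext h1))
    rw [MulMemClass.coe_mul, co, co, ht, hv, w_logistic, w_logistic] at h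
    rw [co, ht, w_logistic] at h0
    rw [hρ, div_eq_iff (right_ne_zero_of_mul h0)]
    linear_combination -h / 2
  have e' : ((d : integralClosure ℤ K) : K)⁻¹ = ((d⁻¹ : (integralClosure ℤ K)ˣ) :
      integralClosure ℤ K) :=
    inv_eq_of_mul_eq_one_right (by exact_mod_cast congrArg Subtype.val d.mul_inv)
  rw [e, e']
  refine ⟨Subtype.prop _, Subtype.prop _, degree_dvd' _ (n + 1) fun D _ _ _ π => ?_⟩
  have h1 : π d * w (π t) (2 ^ (n + 1)) = w (π v) (2 ^ n) := by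
    rw [← map_w, ← map_mul, hd, map_w]
  have pv : w (π v) (2 ^ (n + 1)) = 0 := by rw [← map_w, v0, map_zero]
  have pt : w (π t) (2 ^ (n + 2)) = 0 := by rw [← map_w, t0, map_zero]
  have pt1 : w (π t) (2 ^ (n + 1)) ≠ 0 := by
    rw [← map_w]
    exact ((t1 (n + 1) rfl).map π).ne_zero
  have ht0 : π t ≠ 0 := (unit_of_w (pow_pos two_pos _) pt).ne_zero
  refine ⟨fix_of_mul h1 pt1 (w_fix (fix_of_w pt) _) (w_fix (fix_of_w (w_pow pv 1)) _),
    fun h3 => ?_⟩
  have h4 := fix_of_mul ((mul_comm _ _).trans h1) (d.isUnit.map π).ne_zero h3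
    (w_fix (fix_of_w pv) _)
  have h5 := w_two (CharTwo.two_eq_zero (R := D)) (π t) (2 ^ (n + 1))
  have h6 := congrArg (· ^ 2 ^ 2 ^ (n + 1)) h5
  simp only [mul_pow] at h6
  rw [← pow_mul, ← pow_add, ← two_mul, ← pow_succ', fix_of_w pt, add_pow_char_pow, one_pow, h4,
    h5] at h6
  have h7 : (1 + w (π t) (2 ^ (n + 1))) ^ 2 = 1 :=
    mul_left_cancel₀ ht0 (by linear_combination -h6)
  rw [CharTwo.add_sq, one_pow, add_eq_left] at h7
  exact pt1 (pow_eq_zero_iff two_ne_zero |>.1 h7)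

end Pool.Agent.Results.MP_234818_nt.AlphaApprox
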