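import Pool.Agent.P.MP_234818_nt.Units

set_option autoImplicit false

namespace Pool.Agent.Results.MP_234818_nt.DeltaApprox

open Pool.Agent.Feig

theorem result (K : Type) [Field K] [CharZero K] (n : ℕ) (a b c : K)
    (ha : Function.minimalPeriod (fun x : K => a * x * (1 - x)) (1 / 2) = 2 ^ n)
    (hb : Function.minimalPeriod (fun x : K => b * x * (1 - x)) (1 / 2) = 2 ^ (n + 1))
    (hc : Function.minimalPeriod (fun x : K => c * x * (1 - x)) (1 / 2) = 2 ^ (n + 2)) :
    IsIntegral ℤ ((b - a) / (c - b)) ∧ IsIntegral ℤ ((b - a) / (c - b))⁻¹ ∧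
      2 ^ (n + 2) ∣ (minpoly ℚ ((b - a) / (c - b))).natDegree := by
  obtain ⟨u, hu, u0, -⟩ := exists_lift ha
  obtain ⟨v, hv, v0, v1⟩ := exists_lift hb
  obtain ⟨t, ht, t0, t1⟩ := exists_lift hc
  obtain ⟨s, hs⟩ := unit_sub u0 (v1 n rfl)
  obtain ⟨s', hs'⟩ := unit_sub v0 (t1 (n + 1) rfl)
  have hd : ((s * s'⁻¹ : (integralClosure ℤ K)ˣ) : integralClosure ℤ K) * (t - v) = v - u := by
    rw [← hs, ← hs', Units.val_mul, Units.inv_mul_cancel_right]
  set d : (integralClosure ℤ K)ˣ := s * s'⁻¹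
  have hcb : c - b ≠ 0 := fun h => s'.ne_zero (by
    rw [hs']
    apply Subtype.ext
    push_cast
    rw [ht, hv]
    linear_combination h / 2)
  have e : (b - a) / (c - b) = ((d : integralClosure ℤ K) : K) := by
    have h := congrArg Subtype.val hd
    push_cast at h
    rw [ht, hv, hu] at h
    rw [div_eq_iff hcb]
    linear_combination -2 * h
  have e' : ((d : integralClosure ℤ K) : K)⁻¹ = ((d⁻¹ : (integralClosure ℤ K)ˣ) :
      integralClosure ℤ K) :=
    inv_eq_of_mul_eq_one_right (by exact_mod_cast congrArg Subtype.val d.mul_inv)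
  rw [e, e']
  refine ⟨Subtype.prop _, Subtype.prop _, degree_dvd' _ (n + 1) fun D _ _ _ π => ?_⟩
  have h1 : π d * (π t - π v) = π v - π u := by rw [← map_sub, ← map_mul, hd, map_sub]
  have pu : w (π u) (2 ^ n) = 0 := by rw [← map_w, u0, map_zero]
  have pv : w (π v) (2 ^ (n + 1)) = 0 := by rw [← map_w, v0, map_zero]
  have pt : w (π t) (2 ^ (n + 2)) = 0 := by rw [← map_w, t0, map_zero]
  have pt1 : w (π t) (2 ^ (n + 1)) ≠ 0 := by
    rw [← map_w]
    exact ((t1 (n + 1) rfl).map π).ne_zero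
  have h2 : π t - π v ≠ 0 := by
    rw [← map_sub, ← hs']
    exact (s'.isUnit.map π).ne_zero
  refine ⟨fix_of_mul h1 h2 ?_ ?_, fun h3 => ?_⟩
  · rw [sub_pow_char_pow, fix_of_w pt, fix_of_w (w_pow pv 1)]
  · rw [sub_pow_char_pow, fix_of_w (w_pow pv 1), fix_of_w (w_pow pu 2)]
  · have h4 := fix_of_mul ((mul_comm _ _).trans h1) (d.isUnit.map π).ne_zero h3
      (by rw [sub_pow_char_pow, fix_of_w pv, fix_of_w (w_pow pu 1)])
    rw [sub_pow_char_pow, fix_of_w pv, sub_left_inj] at h4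
    exact not_fix_of_w (unit_of_w (pow_pos two_pos _) pt).ne_zero pt1 h4

end Pool.Agent.Results.MP_234818_nt.DeltaApprox
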